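import Pool.Agent.H168DD.TB
import Pool.Agent.H168DD.NotSC

open Relation

set_option linter.unusedSectionVars false
set_option linter.unusedVariables false

namespace H168DD

variable {V : Type*} [Fintype V] [DecidableEq V]
variable {G : SimpleGraph V} {D : V → V → Prop}

/-- number of neighbours of `v` in `Y` -/
noncomputable def nb (G : SimpleGraph V) (v : V) (Y : Finset V) : ℕ := by
  classical exact (Y.filter (fun u => G.Adj v u)).card

/-- number of adjacent pairs in `X × Y` -/
noncomputable def ad (G : SimpleGraph V) (X Y : Finset V) : ℕ := ∑ v ∈ X, nb G v Y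

/-- size of the edge boundary -/
noncomputable def bd (G : SimpleGraph V) (X : Finset V) : ℕ := ad G X Xᶜ

lemma nb_mono {v : V} {Y Z : Finset V} (h : Y ⊆ Z) : nb G v Y ≤ nb G v Z := by
  classical
  unfold nb
  exact Finset.card_le_card (Finset.filter_subset_filter _ h)

lemma nb_union {v : V} {Y Z : Finset V} (h : Disjoint Y Z) : nb G v (Y ∪ Z) = nb G v Y + nb G v Z := by
  classical
  unfold nb
  rw [Finset.filter_union, Finset.card_union_of_disjoint (Finset.disjoint_filter_filter h)]

lemma nb_union_le {v : V} {Y Z : Finset V} : nb G v (Y ∪ Z) ≤ nb G v Y + nb G v Z := by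
  classical
  unfold nb
  rw [Finset.filter_union]
  exact Finset.card_union_le _ _

lemma ad_comm (X Y : Finset V) : ad G X Y = ad G Y X := by
  classical
  unfold ad nb
  refine (Finset.sum_card_bipartiteAbove_eq_sum_card_bipartiteBelow (s := X) (t := Y)
    (fun a b => G.Adj a b)).trans ?_
  apply Finset.sum_congr rfl
  intro v _
  congr 1
  ext u
  simp [Finset.bipartiteBelow, G.adj_comm]

lemma ad_union_right {X Y Z : Finset V} (h : Disjoint Y Z) :
    ad G X (Y ∪ Z) = ad G X Y + ad G X Z := by
  unfold ad
  rw [← Finset.sum_add_distrib]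
  exact Finset.sum_congr rfl (fun v _ => nb_union h)

lemma ad_union_left {X Y Z : Finset V} (h : Disjoint Y Z) :
    ad G (Y ∪ Z) X = ad G Y X + ad G Z X := by
  rw [ad_comm, ad_union_right h, ad_comm X Y, ad_comm X Z]

lemma ad_mono_right {X Y Z : Finset V} (h : Y ⊆ Z) : ad G X Y ≤ ad G X Z :=
  Finset.sum_le_sum (fun _ _ => nb_mono h)

lemma ad_mono_left {X Y Z : Finset V} (h : Y ⊆ Z) : ad G Y X ≤ ad G Z X := by
  rw [ad_comm Y, ad_comm Z]; exact ad_mono_right h

variable {r : ℕ}

/-- `r`-regularity in the form used here -/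
def Reg (G : SimpleGraph V) (r : ℕ) : Prop := ∀ v, nb G v Finset.univ = r

lemma ad_univ (hreg : Reg G r) (X : Finset V) : ad G X Finset.univ = r * X.card := by
  unfold ad
  rw [Finset.sum_congr rfl (fun v _ => hreg v), Finset.sum_const, smul_eq_mul, mul_comm]

lemma ad_self_add_bd (hreg : Reg G r) (X : Finset V) : ad G X X + bd G X = r * X.card := by
  unfold bd
  rw [← ad_union_right (disjoint_compl_right), Finset.union_compl, ad_univ hreg]

lemma bd_sdiff {K R : Finset V} (hKR : K ⊆ R) : bd G (R \ K) ≤ bd G R + bd G K := by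
  have h1 : (R \ K)ᶜ = K ∪ Rᶜ := by
    ext x; simp only [Finset.mem_compl, Finset.mem_sdiff, Finset.mem_union]; tauto
  have d1 : Disjoint K Rᶜ := by
    rw [Finset.disjoint_left]; intro x hx hx'; exact (Finset.mem_compl.1 hx') (hKR hx)
  have h2 : Kᶜ = (R \ K) ∪ Rᶜ := by
    ext x; simp only [Finset.mem_compl, Finset.mem_sdiff, Finset.mem_union]
    constructor
    · intro h; by_cases hR : x ∈ R
      · exact Or.inl ⟨hR, h⟩
      · exact Or.inr hR
    · rintro (h | h)
      · exact h.2
      · exact fun hk => h (hKR hk)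
  have d2 : Disjoint (R \ K) Rᶜ := by
    rw [Finset.disjoint_left]; intro x hx hx'
    exact (Finset.mem_compl.1 hx') (Finset.mem_sdiff.1 hx).1
  have h3 : R = (R \ K) ∪ K := (Finset.sdiff_union_of_subset hKR).symm
  have d3 : Disjoint (R \ K) K := Finset.sdiff_disjoint
  have e1 : bd G (R \ K) = ad G (R \ K) K + ad G (R \ K) Rᶜ := by
    unfold bd; rw [h1, ad_union_right d1]
  have e2 : bd G K = ad G K (R \ K) + ad G K Rᶜ := by
    unfold bd; rw [h2, ad_union_right d2]
  have e3 : bd G R = ad G (R \ K) Rᶜ + ad G K Rᶜ := by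
    unfold bd
    rw [← ad_union_left d3, ← h3]
  have e4 := ad_comm (G := G) (R \ K) K
  omega

/-- counting lemma for disjoint families closed in `R` -/
lemma fam_count (hreg : Reg G r) {R B : Finset V} {F : Finset (Finset V)}
    (hdisj : ∀ O ∈ F, ∀ O' ∈ F, O ≠ O' → Disjoint O O') (hsub : ∀ O ∈ F, O ⊆ R)
    (hcl : ∀ O ∈ F, ∀ x ∈ O, ∀ y ∈ R, G.Adj x y → y ∈ O ∨ y ∈ B)
    (hbd : ∀ O ∈ F, r ≤ bd G O) : r * F.card ≤ r * B.card + bd G R := by
  have h1 : ∀ O ∈ F, r ≤ ad G O B + ad G O Rᶜ := by
    intro O hO
    refine (hbd O hO).trans ?_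
    unfold bd ad
    rw [← Finset.sum_add_distrib]
    apply Finset.sum_le_sum
    intro x hx
    refine le_trans ?_ nb_union_le
    classical
    unfold nb
    apply Finset.card_le_card
    intro y hy
    rw [Finset.mem_filter] at hy ⊢
    refine ⟨?_, hy.2⟩
    rw [Finset.mem_union]
    by_cases hyR : y ∈ R
    · rcases hcl O hO x hx y hyR hy.2 with h | h
      · exact absurd h (Finset.mem_compl.1 hy.1)
      · exact Or.inl h
    · exact Or.inr (Finset.mem_compl.2 hyR)
  have h2 : r * F.card ≤ ∑ O ∈ F, (ad G O B + ad G O Rᶜ) := by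
    have := Finset.card_nsmul_le_sum F (fun O => ad G O B + ad G O Rᶜ) r h1
    rw [smul_eq_mul] at this
    rw [mul_comm]; exact this
  have h3 : ∀ Y, ∑ O ∈ F, ad G O Y = ad G (F.biUnion id) Y := by
    intro Y
    unfold ad
    rw [Finset.sum_biUnion]
    · simp
    · intro O hO O' hO' hne
      exact hdisj O hO O' hO' hne
  rw [Finset.sum_add_distrib, h3, h3] at h2
  have h4 : ad G (F.biUnion id) B ≤ r * B.card := by
    rw [← ad_univ hreg, ad_comm]
    exact ad_mono_right (Finset.subset_univ _)
  have h5 : ad G (F.biUnion id) Rᶜ ≤ bd G R := by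
    unfold bd
    apply ad_mono_left
    intro x hx
    rw [Finset.mem_biUnion] at hx
    obtain ⟨O, hO, hx⟩ := hx
    exact hsub O hO hx
  omega

/-- `D` is an orientation of `G` -/
def Ori (G : SimpleGraph V) (D : V → V → Prop) : Prop :=
  (∀ a b, D a b → ¬ D b a) ∧ ∀ a b, G.Adj a b ↔ (D a b ∨ D b a)

lemma deg_eq (hD : Ori G D) (v : V) (S : Finset V) : ind D S v + outd D S v = nb G v S := by
  classical
  unfold ind outd nb
  rw [← Finset.card_union_of_disjoint, ← Finset.filter_or]
  · congr 1
    ext u
    rw [Finset.mem_filter, Finset.mem_filter, hD.2]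
    tauto
  · rw [Finset.disjoint_left]
    intro u hu hu'
    rw [Finset.mem_filter] at hu hu'
    exact hD.1 _ _ hu.2 hu'.2

/-- odd set with small boundary -/
def Small (G : SimpleGraph V) (r : ℕ) (K : Finset V) : Prop := Odd K.card ∧ bd G K < r

/-- minimal small sets have small dominating sets -/
lemma small_good (hreg : Reg G r) (hr : 3 ≤ r) (hD : Ori G D) {K : Finset V} (hK : Small G r K)
    (hmin : ∀ X, X ⊂ K → ¬ Small G r X) : ∃ C, Dom D K C ∧ 2 * C.card ≤ K.card := by
  classical
  obtain ⟨hodd, hbd⟩ := hK
  -- proper odd subsets have large boundary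
  have hbig : ∀ X, X ⊂ K → Odd X.card → r ≤ bd G X := by
    intro X hX ho
    by_contra h
    exact hmin X hX ⟨ho, by omega⟩
  have h3 : 3 ≤ K.card := by
    by_contra hlt
    have h1 : K.card = 1 := by
      obtain ⟨p, hp⟩ := hodd
      omega
    rw [Finset.card_eq_one] at h1
    obtain ⟨v, rfl⟩ := h1
    have e := ad_self_add_bd hreg {v}
    have e2 : ad G {v} {v} = 0 := by
      unfold ad nb
      simp
    simp at e
    omega
  have hself := ad_self_add_bd hreg K
  have hFC : ∀ w ∈ K, ∃ m, PMs D (K.erase w) m := by
    intro w hw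
    have hcw : (K.erase w).card + 1 = K.card := Finset.card_erase_add_one hw
    have hev : Even ((K.erase w).card + 0) := by
      obtain ⟨p, hp⟩ := hodd
      exact ⟨p, by omega⟩
    obtain ⟨U, m, hU, hUc, hm⟩ := tutte_berge G (K.erase w) 0 hev (by
      intro A F hA hFo hdisj hsub hcl
      by_contra hcon
      have hcon' : A.card + 1 ≤ F.card := by omega
      have hAK : A ⊆ K := hA.trans (Finset.erase_subset _ _)
      have hwA : w ∉ A := fun h => (Finset.notMem_erase w K) (hA h)
      have hins : (insert w A).card = A.card + 1 := Finset.card_insert_of_notMem hwA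
      have hOK : ∀ O, O ⊆ K.erase w \ A → O ⊂ K := by
        intro O hO
        refine ⟨fun x hx => Finset.mem_of_mem_erase (Finset.mem_sdiff.1 (hO hx)).1, ?_⟩
        intro h
        exact Finset.notMem_erase w K (Finset.mem_sdiff.1 (hO (h hw))).1
      -- general count
      have hcount : ∀ F' : Finset (Finset V), (∀ O ∈ F', Odd O.card) →
          (∀ O ∈ F', ∀ O' ∈ F', O ≠ O' → Disjoint O O') → (∀ O ∈ F', O ⊆ K.erase w \ A) →
          (∀ O ∈ F', ∀ x ∈ O, ∀ y ∈ K.erase w, G.Adj x y → y ∈ O ∨ y ∈ A) →
          F'.card ≤ A.card + 1 := by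
        intro F' ho hd hs hc
        have := fam_count (G := G) hreg (R := K) (B := insert w A) (F := F') hd
          (fun O hO => (hOK O (hs O hO)).1) (by
            intro O hO x hx y hy hxy
            by_cases hyw : y = w
            · right; rw [hyw]; exact Finset.mem_insert_self _ _
            · rcases hc O hO x hx y (Finset.mem_erase.2 ⟨hyw, hy⟩) hxy with h | h
              · exact Or.inl h
              · exact Or.inr (Finset.mem_insert_of_mem h))
          (fun O hO => hbig O (hOK O (hs O hO)) (ho O hO))
        rw [hins] at this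
        have h4 : r * F'.card < r * (A.card + 2) := by
          calc r * F'.card ≤ r * (A.card + 1) + bd G K := this
            _ < r * (A.card + 1) + r := by omega
            _ = r * (A.card + 2) := by ring
        have := Nat.lt_of_mul_lt_mul_left h4
        omega
      have hF1 := hcount F hFo hdisj hsub hcl
      have hFc : F.card = A.card + 1 := by omega
      -- leftover set
      set Z := F.biUnion id with hZ
      set X := (K.erase w \ A) \ Z with hX
      have hZsub : Z ⊆ K.erase w \ A := by
        intro x hx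
        rw [hZ, Finset.mem_biUnion] at hx
        obtain ⟨O, hO, hx⟩ := hx
        exact hsub O hO hx
      have hcZ : Z.card = ∑ O ∈ F, O.card := by
        rw [hZ, Finset.card_biUnion]
        · simp
        · intro O hO O' hO' hne
          exact hdisj O hO O' hO' hne
      have hparZ : (Z.card + F.card) % 2 = 0 := by
        rw [hcZ]
        have : ∑ O ∈ F, O.card + F.card = ∑ O ∈ F, (O.card + 1) := by
          rw [Finset.sum_add_distrib]; simp
        rw [this]
        have hdv : 2 ∣ ∑ O ∈ F, (O.card + 1) := by
          apply Finset.dvd_sum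
          intro O hO
          obtain ⟨p, hp⟩ := hFo O hO
          exact ⟨p + 1, by omega⟩
        omega
      have hc1 : ((K.erase w) \ A).card + A.card = (K.erase w).card := by
        rw [Finset.card_sdiff_add_card_eq_card hA]
      have hc2 : X.card + Z.card = ((K.erase w) \ A).card := by
        rw [hX, Finset.card_sdiff_add_card_eq_card hZsub]
      have hXodd : Odd X.card := by
        rw [Nat.odd_iff]
        rw [Nat.odd_iff] at hodd
        omega
      have hXne : X.Nonempty := by
        rw [← Finset.card_pos]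
        obtain ⟨p, hp⟩ := hXodd
        omega
      have hXF : ∀ O ∈ F, Disjoint X O := by
        intro O hO
        rw [Finset.disjoint_left]
        intro x hx hxO
        rw [hX, Finset.mem_sdiff] at hx
        apply hx.2
        rw [hZ, Finset.mem_biUnion]
        exact ⟨O, hO, hxO⟩
      have hXnF : X ∉ F := by
        intro h
        have := hXF X h
        rw [disjoint_self] at this
        rw [this] at hXne
        simp at hXne
      have := hcount (insert X F) (by
          intro O hO
          rcases Finset.mem_insert.1 hO with rfl | hO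
          · exact hXodd
          · exact hFo O hO) (by
          intro O hO O' hO' hne
          rcases Finset.mem_insert.1 hO with rfl | hO
          · rcases Finset.mem_insert.1 hO' with rfl | hO'
            · exact absurd rfl hne
            · exact hXF O' hO'
          · rcases Finset.mem_insert.1 hO' with rfl | hO'
            · exact (hXF O hO).symm
            · exact hdisj O hO O' hO' hne) (by
          intro O hO
          rcases Finset.mem_insert.1 hO with rfl | hO
          · exact Finset.sdiff_subset
          · exact hsub O hO) (by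
          intro O hO x hx y hy hxy
          rcases Finset.mem_insert.1 hO with rfl | hO
          · by_cases hyA : y ∈ A
            · exact Or.inr hyA
            · left
              rw [hX, Finset.mem_sdiff, Finset.mem_sdiff]
              refine ⟨⟨hy, hyA⟩, ?_⟩
              intro hyZ
              rw [hZ, Finset.mem_biUnion] at hyZ
              obtain ⟨O, hO, hyO⟩ := hyZ
              rw [hX, Finset.mem_sdiff, Finset.mem_sdiff] at hx
              rcases hcl O hO y hyO x hx.1.1 (G.adj_symm hxy) with h | h
              · apply hx.2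
                rw [hZ, Finset.mem_biUnion]
                exact ⟨O, hO, h⟩
              · exact hx.1.2 h
          · exact hcl O hO x hx y hy hxy)
      rw [Finset.card_insert_of_notMem hXnF] at this
      omega)
    have hU0 : U = ∅ := Finset.card_eq_zero.1 (by omega)
    subst hU0
    refine ⟨m, fun x hx => ?_⟩
    have := hm x (by simpa using hx)
    refine ⟨by simpa using this.1, this.2.1, (hD.2 _ _).1 this.2.2⟩
  apply good_of_near_regular hD.1 hr hodd h3 hFC
  · intro v hv
    rw [deg_eq hD, ← hreg v]
    exact nb_mono (Finset.subset_univ _)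
  · have : ∑ v ∈ K, (ind D K v + outd D K v) = ad G K K := by
      unfold ad
      exact Finset.sum_congr rfl (fun v _ => deg_eq hD v K)
    rw [this]
    omega

/-- the base case: no small subset -/
lemma base_case (hreg : Reg G r) (hr : 3 ≤ r) (hD : Ori G D) {R : Finset V} {l : ℕ}
    (hbd : bd G R ≤ l * (r - 1)) (hno : ∀ X, X ⊆ R → ¬ Small G r X) :
    ∃ C, Dom D R C ∧ 2 * C.card ≤ R.card + l := by
  classical
  have hbig : ∀ X, X ⊆ R → Odd X.card → r ≤ bd G X := by
    intro X hX ho
    by_contra h
    exact hno X hX ⟨ho, by omega⟩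
  -- choose the number of unmatched vertices
  obtain ⟨l', hl', hev, hcnt⟩ : ∃ l', l' ≤ l ∧ Even (R.card + l') ∧
      ∀ a f : ℕ, r * f ≤ r * a + bd G R → f ≤ a + l' := by
    obtain ⟨s, rfl⟩ : ∃ s, r = s + 1 := ⟨r - 1, by omega⟩
    have hbd' : bd G R ≤ l * s := by simpa using hbd
    by_cases hpar : Even (R.card + l)
    · refine ⟨l, le_rfl, hpar, ?_⟩
      intro a f h
      have h2 : (s + 1) * f ≤ (s + 1) * (a + l) := by
        calc (s + 1) * f ≤ (s + 1) * a + l * s := by omega
          _ ≤ (s + 1) * a + l * s + l := by omega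
          _ = (s + 1) * (a + l) := by ring
      exact Nat.le_of_mul_le_mul_left h2 (by omega)
    · have hl1 : 1 ≤ l := by
        by_contra hl0
        have hl0 : l = 0 := by omega
        subst hl0
        apply hno R (Finset.Subset.refl R)
        refine ⟨?_, by omega⟩
        rw [Nat.not_even_iff_odd] at hpar
        simpa using hpar
      refine ⟨l - 1, by omega, ?_, ?_⟩
      · rw [Nat.not_even_iff_odd] at hpar
        obtain ⟨p, hp⟩ := hpar
        exact ⟨p, by omega⟩
      · intro a f h
        have h2 : (s + 1) * f < (s + 1) * (a + l) := by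
          calc (s + 1) * f ≤ (s + 1) * a + l * s := by omega
            _ < (s + 1) * a + l * s + l := by omega
            _ = (s + 1) * (a + l) := by ring
        have := Nat.lt_of_mul_lt_mul_left h2
        omega
  obtain ⟨U, m, hU, hUc, hm⟩ := tutte_berge G R l' hev (by
    intro A F hA hFo hdisj hsub hcl
    apply hcnt
    exact fam_count hreg hdisj (fun O hO => (hsub O hO).trans Finset.sdiff_subset) hcl
      (fun O hO => hbig O ((hsub O hO).trans Finset.sdiff_subset) (hFo O hO)))
  set P := (R \ U).filter (fun x => D x (m x)) with hP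
  set Q := (R \ U).filter (fun x => D (m x) x) with hQ
  have hPQ : P.card ≤ Q.card := by
    apply Finset.card_le_card_of_injOn m
    · intro x hx
      rw [Finset.mem_coe, hP, Finset.mem_filter] at hx
      rw [Finset.mem_coe, hQ, Finset.mem_filter]
      obtain ⟨h1, h2, h3⟩ := hm x hx.1
      refine ⟨h1, ?_⟩
      rw [h2]; exact hx.2
    · intro x hx y hy hxy
      rw [Finset.mem_coe, hP, Finset.mem_filter] at hx hy
      obtain ⟨_, h2, _⟩ := hm x hx.1
      obtain ⟨_, h2', _⟩ := hm y hy.1
      rw [← h2, ← h2', hxy]
  have hdis : Disjoint P Q := by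
    rw [Finset.disjoint_left]
    intro x hx hy
    rw [hP, Finset.mem_filter] at hx
    rw [hQ, Finset.mem_filter] at hy
    exact hD.1 _ _ hx.2 hy.2
  have hPQ2 : P.card + Q.card ≤ (R \ U).card := by
    rw [← Finset.card_union_of_disjoint hdis]
    exact Finset.card_le_card (Finset.union_subset (Finset.filter_subset _ _)
      (Finset.filter_subset _ _))
  have hRU : (R \ U).card + U.card = R.card := Finset.card_sdiff_add_card_eq_card hU
  refine ⟨U ∪ P, ⟨?_, ?_⟩, ?_⟩
  · intro x hx
    rcases Finset.mem_union.1 hx with h | h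
    · exact hU h
    · exact (Finset.mem_sdiff.1 (Finset.mem_filter.1 h).1).1
  · intro v hv hvC
    have hvU : v ∉ U := fun h => hvC (Finset.mem_union_left _ h)
    have hvRU : v ∈ R \ U := Finset.mem_sdiff.2 ⟨hv, hvU⟩
    obtain ⟨h1, h2, h3⟩ := hm v hvRU
    have hnot : ¬ D v (m v) := fun h =>
      hvC (Finset.mem_union_right _ (Finset.mem_filter.2 ⟨hvRU, h⟩))
    have hyes : D (m v) v := by
      rcases (hD.2 _ _).1 h3 with h | h
      · exact absurd h hnot
      · exact h
    refine ⟨m v, Finset.mem_union_right _ (Finset.mem_filter.2 ⟨h1, ?_⟩), hyes⟩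
    rw [h2]; exact hyes
  · have := Finset.card_union_le U P
    omega

/-- the induction: greedy removal of small sets -/
lemma greedy (hreg : Reg G r) (hr : 3 ≤ r) (hD : Ori G D) : ∀ (n : ℕ) (R : Finset V) (l : ℕ),
    R.card = n → bd G R ≤ l * (r - 1) → ∃ C, Dom D R C ∧ 2 * C.card ≤ R.card + l := by
  classical
  intro n
  induction n using Nat.strong_induction_on with
  | _ n ih =>
    intro R l hn hbd
    by_cases hno : ∀ X, X ⊆ R → ¬ Small G r X
    · exact base_case hreg hr hD hbd hno
    · push Not at hno
      obtain ⟨X, hXR, hX⟩ := hno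
      obtain ⟨K, hK, hKmin⟩ := Finset.exists_min_image
        (R.powerset.filter (fun K => Small G r K)) (fun K => K.card)
        ⟨X, Finset.mem_filter.2 ⟨Finset.mem_powerset.2 hXR, hX⟩⟩
      rw [Finset.mem_filter, Finset.mem_powerset] at hK
      obtain ⟨hKR, hKs⟩ := hK
      obtain ⟨C1, hC1, hc1⟩ := small_good hreg hr hD hKs (by
        intro Y hY hYs
        have h1 := hKmin Y (Finset.mem_filter.2
          ⟨Finset.mem_powerset.2 (hY.1.trans hKR), hYs⟩)
        have h2 := Finset.card_lt_card hY
        omega)
      obtain ⟨p, hp⟩ := hKs.1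
      have hRK : (R \ K).card + K.card = R.card := Finset.card_sdiff_add_card_eq_card hKR
      have hbd2 : bd G (R \ K) ≤ (l + 1) * (r - 1) := by
        have h1 := bd_sdiff (G := G) hKR
        have h2 := hKs.2
        have h3 : (l + 1) * (r - 1) = l * (r - 1) + (r - 1) := by ring
        rw [h3]
        omega
      obtain ⟨C2, hC2, hc2⟩ := ih (R \ K).card (by omega) (R \ K) (l + 1) rfl hbd2
      refine ⟨C1 ∪ C2, ⟨?_, ?_⟩, ?_⟩
      · intro x hx
        rcases Finset.mem_union.1 hx with h | h
        · exact hKR (hC1.1 h)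
        · exact (Finset.mem_sdiff.1 (hC2.1 h)).1
      · intro v hv hvC
        rw [Finset.mem_union, not_or] at hvC
        by_cases hvK : v ∈ K
        · obtain ⟨u, hu, huv⟩ := hC1.2 v hvK hvC.1
          exact ⟨u, Finset.mem_union_left _ hu, huv⟩
        · obtain ⟨u, hu, huv⟩ := hC2.2 v (Finset.mem_sdiff.2 ⟨hv, hvK⟩) hvC.2
          exact ⟨u, Finset.mem_union_right _ hu, huv⟩
      · have := Finset.card_union_le C1 C2
        omega

/-- main theorem, dominating set form -/
theorem main (hreg : Reg G r) (hr : 3 ≤ r) (hD : Ori G D) :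
    ∃ C : Finset V, (∀ v, v ∉ C → ∃ u ∈ C, D u v) ∧ 2 * C.card ≤ Fintype.card V := by
  obtain ⟨C, hC, hc⟩ := greedy hreg hr hD _ Finset.univ 0 rfl (by
    unfold bd ad nb; simp)
  exact ⟨C, fun v hv => hC.2 v (Finset.mem_univ v) hv, by simpa using hc⟩

end H168DD
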