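import Pool.Agent.H168DD.Main

open Relation

set_option linter.unusedSectionVars false
set_option linter.unusedVariables false

namespace H168DD

variable {V : Type*} [DecidableEq V]
variable {D : V → V → Prop} {S W : Finset V} {t t1 t2 c : V}

open Classical in
noncomputable def na (D : V → V → Prop) (S : Finset V) : ℕ :=
  ((S ×ˢ S).filter (fun p => D p.1 p.2)).card

open Classical in
noncomputable def outd (D : V → V → Prop) (S : Finset V) (v : V) : ℕ := (S.filter (fun u => D v u)).card
open Classical in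
noncomputable def ind (D : V → V → Prop) (S : Finset V) (v : V) : ℕ := (S.filter (fun u => D u v)).card

lemma na_flip : na (fun x y => D y x) S = na D S := by
  classical
  unfold na
  apply Finset.card_bij (fun p _ => (p.2, p.1))
  · intro p hp
    simp only [Finset.mem_filter, Finset.mem_product] at hp ⊢
    exact ⟨⟨hp.1.2, hp.1.1⟩, hp.2⟩
  · intro p _ q _ h
    simp only [Prod.mk.injEq] at h
    exact Prod.ext h.2 h.1
  · intro p hp
    simp only [Finset.mem_filter, Finset.mem_product] at hp
    refine ⟨(p.2, p.1), ?_, rfl⟩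
    simp only [Finset.mem_filter, Finset.mem_product]
    exact ⟨⟨hp.1.2, hp.1.1⟩, hp.2⟩

lemma na_del {v x : V} (hv : v ∈ S) (hx : x ∈ S) (hvx : D v x) : na (del D v x) S < na D S := by
  classical
  unfold na
  apply Finset.card_lt_card
  rw [Finset.ssubset_iff_of_subset]
  · refine ⟨(v, x), ?_, ?_⟩
    · simp [hv, hx, hvx]
    · simp [del]
  · intro p hp
    simp only [Finset.mem_filter] at hp ⊢
    exact ⟨hp.1, hp.2.1⟩

lemma sum_outd : ∑ v ∈ S, outd D S v = ∑ v ∈ S, ind D S v := by
  classical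
  unfold outd ind
  exact Finset.sum_card_bipartiteAbove_eq_sum_card_bipartiteBelow (s := S) (t := S) D

/-- Th from degrees -/
lemma thE_of_deg {v : V} (hv : v ∈ S) (h1 : ind D S v = 1) (h2 : outd D S v = 1) : ThE D S v := by
  classical
  unfold ind at h1
  unfold outd at h2
  rw [Finset.card_eq_one] at h1 h2
  obtain ⟨a, ha⟩ := h1
  obtain ⟨b, hb⟩ := h2
  have ha' : ∀ u, (u ∈ S ∧ D u v) ↔ u = a := by
    intro u
    have := Finset.ext_iff.1 ha u
    simpa using this
  have hb' : ∀ u, (u ∈ S ∧ D v u) ↔ u = b := by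
    intro u
    have := Finset.ext_iff.1 hb u
    simpa using this
  exact ⟨a, b, hv, ((ha' a).2 rfl).1, ((hb' b).2 rfl).1,
    fun u hu => ⟨fun h => (ha' u).1 ⟨hu, h⟩, fun h => ((ha' u).2 h).2⟩,
    fun u hu => ⟨fun h => (hb' u).1 ⟨hu, h⟩, fun h => ((hb' u).2 h).2⟩⟩

lemma deg_of_thE {v : V} (h : ThE D S v) : ind D S v = 1 ∧ outd D S v = 1 := by
  classical
  obtain ⟨a, b, hv, ha, hb, h1, h2⟩ := h
  unfold ind outd
  constructor
  · rw [Finset.card_eq_one]
    refine ⟨a, ?_⟩
    ext u
    simp only [Finset.mem_filter, Finset.mem_singleton]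
    exact ⟨fun h => (h1 u h.1).1 h.2, fun h => by subst h; exact ⟨ha, (h1 u ha).2 rfl⟩⟩
  · rw [Finset.card_eq_one]
    refine ⟨b, ?_⟩
    ext u
    simp only [Finset.mem_filter, Finset.mem_singleton]
    exact ⟨fun h => (h2 u h.1).1 h.2, fun h => by subst h; exact ⟨hb, (h2 u hb).2 rfl⟩⟩

lemma outd_del {v x : V} (hx : x ∈ S) (hvx : D v x) : outd (del D v x) S v + 1 = outd D S v := by
  classical
  unfold outd
  have : S.filter (fun u => del D v x v u) = (S.filter (fun u => D v u)).erase x := by
    ext u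
    simp only [del, Finset.mem_filter, Finset.mem_erase]
    tauto
  rw [this]
  exact Finset.card_erase_add_one (by simp [hx, hvx])

lemma ind_del_ne {v x u : V} (hu : u ≠ x) : ind (del D v x) S u = ind D S u := by
  classical
  unfold ind
  exact congrArg Finset.card (Finset.filter_congr (fun a _ =>
    ⟨fun h => h.1, fun h => ⟨h, fun e => hu e.2⟩⟩))

lemma outd_del_ne {v x u : V} (hu : u ≠ v) : outd (del D v x) S u = outd D S u := by
  classical
  unfold outd
  exact congrArg Finset.card (Finset.filter_congr (fun a _ =>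
    ⟨fun h => h.1, fun h => ⟨h, fun e => hu e.1⟩⟩))

lemma SC.outd_pos (h : SC D S) {v : V} (hv : v ∈ S) (hc : 2 ≤ S.card) : 1 ≤ outd D S v := by
  classical
  obtain ⟨w, hw, hne⟩ := Finset.exists_mem_ne (by omega : 1 < S.card) v
  obtain ⟨z, hz, hd, _⟩ := (h v hv w hw).exists_head hne.symm
  unfold outd
  exact Finset.card_pos.2 ⟨z, by simp [hz, hd]⟩

lemma SC.ind_pos (h : SC D S) {v : V} (hv : v ∈ S) (hc : 2 ≤ S.card) : 1 ≤ ind D S v := by
  classical
  obtain ⟨w, hw, hne⟩ := Finset.exists_mem_ne (by omega : 1 < S.card) v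
  obtain ⟨z, hz, hd, _⟩ := (h w hw v hv).exists_tail hne
  unfold ind
  exact Finset.card_pos.2 ⟨z, by simp [hz, hd]⟩

/-- degree 3 when out-degree at least two, in an arc-minimal Theta-free digraph -/
lemma deg3 (h : Odds D S) (hcard : 5 ≤ S.card) (IH : IHyp V S.card)
    (hmin : ∀ v x, v ∈ S → x ∈ S → D v x → Odds (del D v x) S → ∃ z, ThE (del D v x) S z)
    (hno : ∀ z, ¬ ThE D S z) {v : V} (hv : v ∈ S) (h2 : 2 ≤ outd D S v) :
    ind D S v + outd D S v = 3 := by
  classical
  unfold outd at h2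
  obtain ⟨x, hx, x', hx', hne⟩ := Finset.one_lt_card.1 (by omega : 1 < (S.filter (fun u => D v u)).card)
  rw [Finset.mem_filter] at hx hx'
  have hO : Odds (del D v x) S := h.del_odds (claimR h IH hv hx.1 hx'.1 hne hx.2 hx'.2 hno)
  obtain ⟨z, hz⟩ := hmin v x hv hx.1 hx.2 hO
  have honly : ∀ z, ThE (del D v x) S z → z = v ∨ z = x := by
    intro z hz
    by_contra hcon
    push Not at hcon
    have hd := deg_of_thE hz
    rw [ind_del_ne hcon.2, outd_del_ne hcon.1] at hd
    obtain ⟨_, _, hz'⟩ := hz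
    exact hno z (thE_of_deg hz'.1 hd.1 hd.2)
  have hvz : ThE (del D v x) S v := by
    rcases honly z hz with rfl | rfl
    · exact hz
    · obtain ⟨a, b, hz'⟩ := hz
      obtain ⟨y, hy, hy1, _⟩ := claim1 hO hz' hcard IH
      rcases honly y hy with rfl | rfl
      · exact hy
      · exact absurd rfl hy1
  have hd := deg_of_thE hvz
  have hvx : v ≠ x := by rintro rfl; exact h.irr _ hx.2
  rw [ind_del_ne hvx] at hd
  have := outd_del (S := S) hx.1 hx.2
  omega

lemma exists_theta (k : ℕ) (hk : 5 ≤ k) (IH : IHyp V k) :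
    ∀ m (D : V → V → Prop) (S : Finset V), na D S = m → S.card = k → Odds D S →
      ∃ z, ThE D S z := by
  intro m
  induction m using Nat.strong_induction_on with
  | _ m ihm =>
    intro D S hm hS h
    by_contra hno
    push Not at hno
    subst hS
    have hmin : ∀ v x, v ∈ S → x ∈ S → D v x → Odds (del D v x) S →
        ∃ z, ThE (del D v x) S z := by
      intro v x hv hx hvx hO
      exact ihm _ (by rw [← hm]; exact na_del hv hx hvx) _ S rfl rfl hO
    have hall : ∀ v ∈ S, ind D S v + outd D S v = 3 := by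
      intro v hv
      by_cases h2 : 2 ≤ outd D S v
      · exact deg3 h hk IH hmin hno hv h2
      · have h1 := h.sc.outd_pos hv (by omega)
        have h1' := h.sc.ind_pos hv (by omega)
        by_cases h3 : 2 ≤ ind D S v
        · -- flip
          have hf := h.flip
          have hno' : ∀ z, ¬ ThE (fun x y => D y x) S z := fun z hz => hno z hz.flip
          have hmin' : ∀ v x, v ∈ S → x ∈ S → D x v →
              Odds (del (fun x y => D y x) v x) S →
              ∃ z, ThE (del (fun x y => D y x) v x) S z := by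
            intro v x hv hx hvx hO
            refine ihm _ ?_ _ S rfl rfl hO
            rw [← hm, ← na_flip (D := D)]
            exact na_del (D := fun x y => D y x) hv hx hvx
          have := deg3 (D := fun x y => D y x) hf hk IH hmin' hno' hv h3
          have e1 : ind (fun x y => D y x) S v = outd D S v := rfl
          have e2 : outd (fun x y => D y x) S v = ind D S v := rfl
          rw [e1, e2] at this
          omega
        · exfalso
          exact hno v (thE_of_deg hv (by omega) (by omega))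
    have hs : ∑ v ∈ S, (ind D S v + outd D S v) = 3 * S.card := by
      rw [Finset.sum_congr rfl hall, Finset.sum_const, smul_eq_mul, mul_comm]
    rw [Finset.sum_add_distrib, sum_outd] at hs
    obtain ⟨p, hp⟩ := h.card_odd (Finset.card_pos.1 (by omega))
    omega

open Classical in
lemma final (k : ℕ) (hk : 5 ≤ k) (IH : IHyp V k) :
    ∀ m (D : V → V → Prop) (S : Finset V) (c : V),
      (S.filter (fun x => ThE D S x ∧ D x c)).card = m → S.card = k → Odds D S → c ∈ S →
      ¬ S2 D S c → ∀ τ, ThE D S τ → D τ c → False := by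
  intro m
  induction m using Nat.strong_induction_on with
  | _ m ihm =>
    intro D S c hm hS h hc hfail τ hτ hτc
    subst hS
    have f1 : ∀ x, ThE D S x → x ≠ c → D x c ∨ D c x := by
      intro x hx hxc
      by_contra hcon
      push Not at hcon
      exact hfail (Or.inl ⟨x, hx, hxc, hcon.1, hcon.2⟩)
    have f2 : ∀ x y, ThE D S x → ThE D S y → D c x → D y c → ¬ Rch D (S.erase c) x y := by
      intro x y hx hy h1 h2 h3
      exact hfail (Or.inr ⟨x, y, hx, hy, h1, h2, h3⟩)
    have hcn : ¬ ThE D S c := by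
      rintro ⟨c1, c2, hct⟩
      obtain ⟨x, hx, hxc, hx1, hx2⟩ := claim1 h hct hk IH
      have hxS : x ∈ S := by obtain ⟨_, _, hx'⟩ := hx; exact hx'.1
      rcases f1 x hx hxc with hd | hd
      · exact hx1 ((hct.2.2.2.1 x hxS).1 hd)
      · exact hx2 ((hct.2.2.2.2 x hxS).1 hd)
    obtain ⟨y1, c', hτ'⟩ := hτ
    have hcc : c = c' := (hτ'.2.2.2.2 c hc).1 hτc
    subst hcc
    by_cases hex : ∃ τ2, τ2 ≠ τ ∧ ThE D S τ2 ∧ D τ2 c
    · obtain ⟨τ2, hne, ⟨y2, c', h2⟩, h2c⟩ := hex
      have hcc : c = c' := (h2.2.2.2.2 c hc).1 h2c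
      subst hcc
      have hO := h.add_arc hτ' h2 hne.symm
      have hy1c : y1 ≠ c := hτ'.ne12 h
      have hy1τ : y1 ≠ τ := hτ'.ne1 h
      have hτ2c : τ2 ≠ c := (h2.ne2 h).symm
      have hτcne : τ ≠ c := (hτ'.ne2 h).symm
      have hτ2y : ¬ D τ2 y1 := fun hd => hy1c ((h2.2.2.2.2 y1 hτ'.2.1).1 hd)
      -- transfer back
      have back : ∀ x, ThE (add D τ2 y1) S x → ThE D S x ∧ x ≠ τ2 := by
        rintro x ⟨a, b, hx⟩
        have hx2 : x ≠ τ2 := by
          rintro rfl
          have e1 := (hx.2.2.2.2 c hc).1 (Or.inl h2c)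
          have e2 := (hx.2.2.2.2 y1 hτ'.2.1).1 (Or.inr ⟨rfl, rfl⟩)
          exact hy1c (e2.trans e1.symm)
        have hxy : x ≠ y1 := by
          rintro rfl
          have e1 := (hx.2.2.2.1 τ2 h2.1).1 (Or.inr ⟨rfl, rfl⟩)
          have hp := h.sc.ind_pos hx.1 (by omega)
          unfold ind at hp
          obtain ⟨u, hu⟩ := Finset.card_pos.1 hp
          rw [Finset.mem_filter] at hu
          have e2 := (hx.2.2.2.1 u hu.1).1 (Or.inl hu.2)
          rw [e2, ← e1] at hu
          exact hτ2y hu.2
        refine ⟨⟨a, b, hx.1, hx.2.1, hx.2.2.1, ?_, ?_⟩, hx2⟩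
        · intro u hu
          rw [← hx.2.2.2.1 u hu]
          exact ⟨fun h => Or.inl h, fun h => h.elim id (fun h => absurd h.2 hxy)⟩
        · intro u hu
          rw [← hx.2.2.2.2 u hu]
          exact ⟨fun h => Or.inl h, fun h => h.elim id (fun h => absurd h.1 hx2)⟩
      have hfail' : ¬ S2 (add D τ2 y1) S c := by
        rintro (⟨x, hx, hxc, g1, g2⟩ | ⟨x, y, hx, hy, g1, g2, g3⟩)
        · rcases f1 x (back x hx).1 hxc with hd | hd
          · exact g1 (Or.inl hd)
          · exact g2 (Or.inl hd)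
        · have hcx : D c x := g1.elim id (fun h => absurd h.1.symm hτ2c)
          have hyc : D y c := g2.elim id (fun h => absurd h.1 (back y hy).2)
          have hpath : ∀ z, Rch (add D τ2 y1) (S.erase c) x z →
              Rch D (S.erase c) x z ∨ Rch D (S.erase c) x τ2 := by
            intro z hz
            unfold Rch at hz
            induction hz with
            | refl => exact Or.inl Rch.refl
            | @tail u w _ huw ih =>
              rcases ih with ih | ih
              · rcases huw.1 with hd | ⟨rfl, rfl⟩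
                · exact Or.inl (Rch.tail ih hd huw.2.1 huw.2.2)
                · exact Or.inr ih
              · exact Or.inr ih
          rcases hpath y g3 with hr | hr
          · exact f2 x y (back x hx).1 (back y hy).1 hcx hyc hr
          · exact f2 x τ2 (back x hx).1 ⟨y2, c, h2⟩ hcx h2c hr
      have hτadd : ThE (add D τ2 y1) S τ := by
        refine ⟨y1, c, hτ'.1, hτ'.2.1, hτ'.2.2.1, ?_, ?_⟩
        · intro u hu
          rw [← hτ'.2.2.2.1 u hu]
          exact ⟨fun h => h.elim id (fun h => absurd h.2.symm hy1τ), fun h => Or.inl h⟩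
        · intro u hu
          rw [← hτ'.2.2.2.2 u hu]
          exact ⟨fun h => h.elim id (fun h => absurd h.1.symm hne), fun h => Or.inl h⟩
      refine ihm _ ?_ (add D τ2 y1) S c rfl rfl hO hc hfail' τ hτadd (Or.inl hτc)
      rw [← hm]
      apply Finset.card_lt_card
      rw [Finset.ssubset_iff_of_subset]
      · refine ⟨τ2, ?_, ?_⟩
        · rw [Finset.mem_filter]; exact ⟨h2.1, ⟨y2, c, h2⟩, h2c⟩
        · rw [Finset.mem_filter]; rintro ⟨_, hx, _⟩; exact (back τ2 hx).2 rfl
      · intro x hx
        rw [Finset.mem_filter] at hx ⊢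
        exact ⟨hx.1, (back x hx.2.1).1,
          hx.2.2.elim id (fun h => absurd h.1 (back x hx.2.1).2)⟩
    · push Not at hex
      have hy1c : y1 ≠ c := hτ'.ne12 h
      have hτcne : τ ≠ c := (hτ'.ne2 h).symm
      rcases RA h hτ' hk IH with ⟨x, hx, h1, h2, h3, n1, n2, n3, n4⟩ |
        ⟨x, y, hxS, hyS, hxU, hyU, hp, hcx, hyc, n1, n2, n3, n4, lx, ly, hno⟩
      · rcases f1 x hx h3 with hd | hd
        · exact n3 hd
        · exact n4 hd
      · simp only [Finset.mem_insert, Finset.mem_singleton, not_or] at hxU hyU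
        have hyb : D y y1 ∧ D y c := by
          by_contra hcon
          have hyT := ly hcon
          rcases f1 y hyT hyU.2.2 with hd | hd
          · exact hex y hyU.2.1 hyT hd
          · exact n4 hd
        have hnx : ¬ D y1 x := fun hd => hno ⟨hd, hyb.2⟩
        have hcx' : D c x := hcx.elim (fun h => absurd h hnx) id
        have hxT := lx (fun h => hnx h.1)
        refine f2 x τ hxT ⟨y1, c, hτ'⟩ hcx' hτc ?_
        have hsub : S \ {y1, τ, c} ⊆ S.erase c := by
          intro z hz
          rw [Finset.mem_sdiff] at hz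
          refine Finset.mem_erase.2 ⟨?_, hz.1⟩
          rintro rfl; simp at hz
        have hyE : y ∈ S.erase c := Finset.mem_erase.2 ⟨hyU.2.2, hyS⟩
        have hy1E : y1 ∈ S.erase c := Finset.mem_erase.2 ⟨hy1c, hτ'.2.1⟩
        have hτE : τ ∈ S.erase c := Finset.mem_erase.2 ⟨hτcne, hτ'.1⟩
        exact ((hp.mono hsub).tail hyb.1 hyE hy1E).tail hτ'.arc_in hy1E hτE

lemma S2_three (h : Odds D S) (h3 : S.card = 3) (hc : c ∈ S) : S2 D S c := by
  classical
  obtain ⟨w, hw, hwc⟩ := Finset.exists_mem_ne (by omega : 1 < S.card) c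
  obtain ⟨a, ha, hca, _, _⟩ := (h.sc c hc w hw).exists_head hwc.symm
  obtain ⟨b, hb, hbc, _, _⟩ := (h.sc w hw c hc).exists_tail hwc
  have hac : a ≠ c := by rintro rfl; exact h.irr _ hca
  have hbc' : b ≠ c := by rintro rfl; exact h.irr _ hbc
  have hab : a ≠ b := by rintro rfl; exact h.no2 hc ha hca hbc
  have hS : S = {c, a, b} := by
    symm
    apply Finset.eq_of_subset_of_card_le
    · intro x hx
      simp only [Finset.mem_insert, Finset.mem_singleton] at hx
      rcases hx with rfl | rfl | rfl <;> assumption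
    · rw [h3, Finset.card_insert_of_notMem (by simp [hac.symm, hbc'.symm]), Finset.card_pair hab]
  have mem : ∀ x ∈ S, x = c ∨ x = a ∨ x = b := by
    intro x hx; rw [hS] at hx; simpa using hx
  have hDab : D a b := by
    obtain ⟨z, hz, hd, _, _⟩ := (h.sc a ha b hb).exists_head hab
    rcases mem z hz with rfl | rfl | rfl
    · exact absurd hd (fun hd => h.no2 hc ha hca hd)
    · exact absurd hd (h.irr _)
    · exact hd
  right
  refine ⟨a, b, ⟨c, b, ha, hc, hb, ?_, ?_⟩, ⟨a, c, hb, ha, hc, ?_, ?_⟩, hca, hbc,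
    Rch.single hDab (Finset.mem_erase.2 ⟨hac, ha⟩) (Finset.mem_erase.2 ⟨hbc', hb⟩)⟩
  · intro u hu
    rcases mem u hu with e | e | e
    · rw [e]; exact ⟨fun _ => rfl, fun _ => hca⟩
    · rw [e]; exact ⟨fun hd => absurd hd (h.irr _), fun e => absurd e hac⟩
    · rw [e]; exact ⟨fun hd => absurd hd (fun hd => h.no2 ha hb hDab hd), fun e => absurd e hbc'⟩
  · intro u hu
    rcases mem u hu with e | e | e
    · rw [e]; exact ⟨fun hd => absurd hd (fun hd => h.no2 hc ha hca hd), fun e => absurd e.symm hbc'⟩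
    · rw [e]; exact ⟨fun hd => absurd hd (h.irr _), fun e => absurd e hab⟩
    · rw [e]; exact ⟨fun _ => rfl, fun _ => hDab⟩
  · intro u hu
    rcases mem u hu with e | e | e
    · rw [e]; exact ⟨fun hd => absurd hd (fun hd => h.no2 hb hc hbc hd), fun e => absurd e.symm hac⟩
    · rw [e]; exact ⟨fun _ => rfl, fun _ => hDab⟩
    · rw [e]; exact ⟨fun hd => absurd hd (h.irr _), fun e => absurd e.symm hab⟩
  · intro u hu
    rcases mem u hu with e | e | e
    · rw [e]; exact ⟨fun _ => rfl, fun _ => hbc⟩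
    · rw [e]; exact ⟨fun hd => absurd hd (fun hd => h.no2 ha hb hDab hd), fun e => absurd e hac⟩
    · rw [e]; exact ⟨fun hd => absurd hd (h.irr _), fun e => absurd e hbc'⟩

theorem S2_all (V : Type*) [DecidableEq V] : ∀ k, IHyp V k := by
  intro k
  induction k using Nat.strong_induction_on with
  | _ k ih =>
    intro D S c hlt h3 h hc
    have IH : IHyp V S.card := ih S.card hlt
    obtain ⟨p, hp⟩ := h.card_odd ⟨c, hc⟩
    by_cases h5 : 5 ≤ S.card
    · by_contra hfail
      obtain ⟨z, hz⟩ := exists_theta S.card h5 IH _ D S rfl rfl h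
      by_cases hzc : z = c
      · subst hzc
        obtain ⟨c1, c2, hct⟩ := hz
        obtain ⟨x, hx, hxc, hx1, hx2⟩ := claim1 h hct h5 IH
        have hxS : x ∈ S := by obtain ⟨_, _, hx'⟩ := hx; exact hx'.1
        refine hfail (Or.inl ⟨x, hx, hxc, ?_, ?_⟩)
        · intro hd; exact hx1 ((hct.2.2.2.1 x hxS).1 hd)
        · intro hd; exact hx2 ((hct.2.2.2.2 x hxS).1 hd)
      · by_cases h1 : D z c
        · exact final S.card h5 IH _ D S c rfl rfl h hc hfail z hz h1
        · by_cases h2 : D c z
          · exact final S.card h5 IH _ (fun x y => D y x) S c rfl rfl h.flip hc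
              (fun hh => hfail hh.flip) z hz.flip h2
          · exact hfail (Or.inl ⟨z, hz, hzc, h1, h2⟩)
    · exact S2_three h (by omega) hc

theorem two_theta (h : Odds D S) (h3 : 3 ≤ S.card) :
    ∃ x y, x ≠ y ∧ ThE D S x ∧ ThE D S y := by
  obtain ⟨c, hc⟩ := Finset.card_pos.1 (by omega : 0 < S.card)
  have key : ∀ c ∈ S, ∃ x, ThE D S x ∧ x ≠ c := by
    intro c hc
    rcases S2_all V (S.card + 1) D S c (by omega) h3 h hc with
      ⟨x, hx, hxc, _⟩ | ⟨x, y, hx, hy, h1, _⟩
    · exact ⟨x, hx, hxc⟩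
    · exact ⟨x, hx, by rintro rfl; exact h.irr _ h1⟩
  obtain ⟨x, hx, _⟩ := key c hc
  obtain ⟨y, hy, hyx⟩ := key x (by obtain ⟨_, _, hx'⟩ := hx; exact hx'.1)
  exact ⟨y, x, hyx, hy, hx⟩

end H168DD
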