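import Pool.Agent.H572R4.Stmts

/-! Project H572-PI, task D2 (second prover helper168). -/

set_option autoImplicit false

namespace Pool.Agent.H168DD.PID2

open Pool.Agent.H572R4 Pool.Agent.Helper446 Pool.Agent.Helper446.Defs Pool.Agent.Helper446.CB

theorem seg_xp_comp : Computable fun x : ℕ × ℕ => seg (xp x.1) x.2 := by
  have h : Primrec fun x : ℕ × ℕ => (List.range x.2).map (fun i => decide (i = x.1)) := by
    refine Primrec.list_map (Primrec.list_range.comp Primrec.snd) ?_
    have h1 : PrimrecRel fun (x : ℕ × ℕ) (i : ℕ) => i = x.1 :=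
      Primrec.eq.comp Primrec.snd (Primrec.fst.comp Primrec.fst)
    exact h1.decide
  exact h.to_comp

theorem seg_eq_len {x y : ℕ → Bool} {n m : ℕ} (h : seg x n = seg y m) : n = m := by
  have := congrArg List.length h
  simpa using this

/-- the bad strings -/
def BS (R : Set ℕ) : Set (List Bool) := {σ | ∃ j, j ∉ R ∧ σ = seg (xp j) (j + 1)}

/-- the points whose first one is in `R` -/
def KS (R : Set ℕ) : Set (ℕ → Bool) := {x | ∀ n, seg x n ∉ BS R}

theorem mem_KS {R : Set ℕ} {x : ℕ → Bool} :
    x ∈ KS R ↔ ∀ j, (∀ i < j + 1, x i = xp j i) → j ∈ R := by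
  constructor
  · intro h j hj
    by_contra hR
    exact h (j + 1) ⟨j, hR, seg_eq_iff.2 hj⟩
  · rintro h n ⟨j, hR, hj⟩
    have hn := seg_eq_len hj
    subst hn
    exact hR (h j (seg_eq_iff.1 hj))

theorem pi_KS {R : Set ℕ} (hR : REPred (fun n => n ∉ R)) : IsPi01 (KS R) := by
  refine isPi01_iff.2 ⟨BS R, ?_, rfl⟩
  refine RE.exN (p := fun (σ : List Bool) j => j ∉ R ∧ σ = seg (xp j) (j + 1)) ?_
  refine RE.and ?_ ?_
  · exact RE.comp (p := fun n : ℕ => n ∉ R) hR (f := fun x : List Bool × ℕ => x.2) (by fun_prop)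
  · exact RE.eq (by fun_prop) (seg_xp_comp.comp
        (g := fun x : List Bool × ℕ => (x.2, x.2 + 1))
        (Pool.Agent.Helper446.RE.cpair (by fun_prop) (by fun_prop)))

theorem zz_KS (R : Set ℕ) : zz ∈ KS R := by
  rw [mem_KS]
  intro j hj
  have := hj j (by omega)
  simp [zz, xp] at this

theorem xp_KS (R : Set ℕ) (j : ℕ) : xp j ∈ KS R ↔ j ∈ R := by
  rw [mem_KS]
  constructor
  · intro h
    exact h j (fun i _ => rfl)
  · intro h j' hj'
    have := hj' j' (by omega)
    have e : j' = j := by simpa [xp] using this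
    rw [e]; exact h

theorem first (x : ℕ → Bool) (hx : x ≠ zz) : ∃ j, ∀ i < j + 1, x i = xp j i := by
  classical
  have h : ∃ j, x j = true := by
    by_contra hc
    push Not at hc
    apply hx
    funext i
    simpa [zz] using hc i
  refine ⟨Nat.find h, fun i hi => ?_⟩
  by_cases e : i = Nat.find h
  · have h1 := Nat.find_spec h
    rw [← e] at h1
    simp [xp, h1, ← e]
  · have h1 := Nat.find_min h (m := i) (by omega)
    have h2 : x i = false := by simpa using h1
    simp [xp, h2, e]

theorem first_unique {x : ℕ → Bool} {j j' : ℕ} (h : ∀ i < j + 1, x i = xp j i)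
    (h' : ∀ i < j' + 1, x i = xp j' i) : j = j' := by
  have a1 : x j = true := by rw [h j (by omega)]; simp [xp]
  have a2 : x j' = true := by rw [h' j' (by omega)]; simp [xp]
  rcases Nat.lt_trichotomy j j' with hlt | he | hlt
  · have := h' j (by omega)
    rw [a1] at this
    simpa [xp] using this.symm
  · exact he
  · have := h j' (by omega)
    rw [a2] at this
    have e : j' = j := by simpa [xp] using this.symm
    exact e.symm

theorem inter_KS (R : Set ℕ) : KS R ∩ KS Rᶜ = {zz} := by
  ext x
  rw [Set.mem_inter_iff, Set.mem_singleton_iff]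
  constructor
  · rintro ⟨h1, h2⟩
    by_contra hx
    obtain ⟨j, hj⟩ := first x hx
    exact (mem_KS.1 h2 j hj) (mem_KS.1 h1 j hj)
  · rintro rfl
    exact ⟨zz_KS _, zz_KS _⟩

theorem union_KS (R : Set ℕ) : KS R ∪ KS Rᶜ = Set.univ := by
  classical
  rw [Set.eq_univ_iff_forall]
  intro x
  by_cases hx : x = zz
  · rw [hx]; exact Or.inl (zz_KS _)
  · obtain ⟨j, hj⟩ := first x hx
    by_cases hR : j ∈ R
    · left
      rw [mem_KS]
      intro j' hj'
      rw [← first_unique hj hj']; exact hR
    · right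
      rw [mem_KS]
      intro j' hj'
      rw [← first_unique hj hj']; exact hR

theorem taskD2 : TaskD2 := by
  intro B hB R hR
  have h1 : REPred (fun n => n ∉ R) := (ComputablePred.not hR).to_re
  have h2 : REPred (fun n => n ∉ Rᶜ) := by
    refine (ComputablePred.to_re hR).of_eq fun n => ?_
    simp
  refine ⟨⟨KS R, pi_KS h1, ?_⟩, ⟨KS Rᶜ, pi_KS h2, ?_⟩, ?_, ?_, ?_, ?_⟩
  · rw [hB]; intro x hx; rw [Set.mem_singleton_iff.1 hx]; exact zz_KS _
  · rw [hB]; intro x hx; rw [Set.mem_singleton_iff.1 hx]; exact zz_KS _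
  · apply Subtype.ext
    rw [lb_inf, lb_bot]
    exact (inter_KS R).trans hB.symm
  · apply Subtype.ext
    rw [lb_sup, lb_top]
    exact union_KS R
  · ext j
    exact xp_KS R j
  · ext j
    exact xp_KS Rᶜ j

theorem taskA2 : TaskA2 := by
  have h : IsPi01 (KS ∅ ∩ KS ∅ᶜ) := by
    refine IsPi01.inter (pi_KS ?_) (pi_KS ?_)
    · have h0 : ComputablePred (fun n : ℕ => n ∉ (∅ : Set ℕ)) := by
        have : ComputablePred fun n : ℕ => n = n :=
          Pool.Agent.Helper446.RE.cp_eq Computable.id Computable.id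
        exact this.of_eq fun x => by simp
      exact h0.to_re
    · have h0 : ComputablePred (fun n : ℕ => n ∉ ((∅ : Set ℕ)ᶜ)) := by
        have : ComputablePred fun n : ℕ => n = n + 1 :=
          Pool.Agent.Helper446.RE.cp_eq Computable.id (by fun_prop)
        exact this.of_eq fun x => by simp
      exact h0.to_re
  rw [inter_KS] at h
  exact h

theorem taskD10 : TaskD10 := by
  intro j
  have h1 : IsPi01 ({xp j} : Set (ℕ → Bool)) := by
    refine isPi01_iff.2 ⟨{σ | σ ≠ seg (xp j) σ.length}, ?_, ?_⟩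
    · refine RE.ne (by fun_prop) (seg_xp_comp.comp (g := fun σ : List Bool => (j, σ.length))
        (Pool.Agent.Helper446.RE.cpair (by fun_prop) (by fun_prop)))
    · ext x
      simp only [Set.mem_singleton_iff, Set.mem_ofPred_eq, seg_length, ne_eq, not_not]
      constructor
      · rintro rfl n
        rfl
      · intro h
        funext i
        exact seg_eq_iff.1 (h (i + 1)) i (by omega)
  have h2 : IsPi01 ({zz} ∪ {xp j}) := IsPi01.union taskA2 h1
  exact h2

end Pool.Agent.H168DD.PID2
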