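import Pool.Agent.H572R4.Stmts

/-! Project H572-PI, task F1 (second prover helper168). -/

set_option autoImplicit false

namespace Pool.Agent.H168DD.PIF1

open Pool.Agent.H572R4

section
variable {L M : Type} [Lattice L] [BoundedOrder L] [Lattice M] [BoundedOrder M]

lemma cpl_map (Φ : L ≃o M) {c : L} (h : Cpl c) : Cpl (Φ c) := by
  obtain ⟨d, h1, h2⟩ := h
  exact ⟨Φ d, by rw [← map_inf, h1, map_bot], by rw [← map_sup, h2, map_top]⟩

lemma cpl_iff (Φ : L ≃o M) (c : L) : Cpl (Φ c) ↔ Cpl c :=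
  ⟨fun h => by simpa using cpl_map Φ.symm h, cpl_map Φ⟩

lemma good_map (Φ : L ≃o M) {c V : L} (h : Good c V) : Good (Φ c) (Φ V) := by
  obtain ⟨d, hd, h1, h2⟩ := h
  refine ⟨Φ d, cpl_map Φ hd, by rw [← map_inf, h1, map_bot], ?_⟩
  rw [← map_inf, ← map_sup, ← h2]

lemma good_iff (Φ : L ≃o M) (c V : L) : Good (Φ c) (Φ V) ↔ Good c V :=
  ⟨fun h => by simpa using good_map Φ.symm h, good_map Φ⟩

lemma nn_map (Φ : L ≃o M) {Q a : L} {n : ℕ} (h : NN Q a n) : NN (Φ Q) (Φ a) n := by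
  obtain ⟨D, hl, h1, h2, h3⟩ := h
  refine ⟨D.map Φ, by simpa using hl, ?_, ?_, ?_⟩
  · intro d hd
    rw [List.mem_map] at hd
    obtain ⟨x, hx, rfl⟩ := hd
    exact Φ.monotone (h1 x hx)
  · rw [List.pairwise_map]
    refine h2.imp ?_
    intro x y hxy
    rw [← map_inf]
    exact Φ.monotone hxy
  · intro d hd c hc hac hle
    rw [List.mem_map] at hd
    obtain ⟨x, hx, rfl⟩ := hd
    refine h3 x hx (Φ.symm c) (cpl_map Φ.symm hc) ?_ ?_
    · rw [← Φ.le_iff_le, OrderIso.apply_symm_apply]; exact hac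
    · rw [← Φ.le_iff_le, map_inf, OrderIso.apply_symm_apply]; exact hle

lemma nn_iff (Φ : L ≃o M) (Q a : L) (n : ℕ) : NN (Φ Q) (Φ a) n ↔ NN Q a n :=
  ⟨fun h => by simpa using nn_map Φ.symm h, nn_map Φ⟩

lemma mark_map (Φ : L ≃o M) {P Q : L} {n : ℕ} {c : L} (h : Mark P Q n c) :
    Mark (Φ P) (Φ Q) n (Φ c) := by
  intro a ha hle
  have e : Φ (Φ.symm a) = a := OrderIso.apply_symm_apply _ _
  have h1 : IsAtom (Φ.symm a) := by
    rw [← OrderIso.isAtom_iff Φ, e]; exact ha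
  have h2 : Φ.symm a ≤ P ⊓ c := by
    rw [← Φ.le_iff_le, map_inf, e]; exact hle
  obtain ⟨h3, h4⟩ := h _ h1 h2
  rw [← nn_iff Φ, e] at h3 h4
  exact ⟨h3, h4⟩

lemma mark_iff (Φ : L ≃o M) (P Q : L) (n : ℕ) (c : L) :
    Mark (Φ P) (Φ Q) n (Φ c) ↔ Mark P Q n c :=
  ⟨fun h => by simpa using mark_map Φ.symm h, mark_map Φ⟩

lemma tt_iff (Φ : L ≃o M) (V : ℕ → L) (W : ℕ → M) (k : ℕ) :
    (∀ i ≤ k, W i = Φ (V i)) → ∀ c, TT W k (Φ c) ↔ TT V k c := by
  induction k with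
  | zero =>
    intro h c
    show ¬ Good (Φ c) (W 0) ↔ ¬ Good c (V 0)
    rw [h 0 le_rfl, good_iff]
  | succ k ih =>
    intro h c
    have ih' := ih (fun i hi => h i (by omega))
    have hW := h (k + 1) le_rfl
    show ((Even k → ∃ c', Cpl c' ∧ c' ≤ Φ c ∧ Good c' (W (k + 1)) ∧ TT W k c') ∧
      (¬ Even k → ∀ c' c'', Cpl c' → Cpl c'' → c' ⊓ c'' = ⊥ → c' ⊔ c'' = Φ c →
        Good c' (W (k + 1)) → TT W k c'')) ↔
      ((Even k → ∃ c', Cpl c' ∧ c' ≤ c ∧ Good c' (V (k + 1)) ∧ TT V k c') ∧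
      (¬ Even k → ∀ c' c'', Cpl c' → Cpl c'' → c' ⊓ c'' = ⊥ → c' ⊔ c'' = c →
        Good c' (V (k + 1)) → TT V k c''))
    rw [hW]
    refine and_congr (forall_congr' fun _ => ?_) (forall_congr' fun _ => ?_)
    · constructor
      · rintro ⟨c', h1, h2, h3, h4⟩
        have e : Φ (Φ.symm c') = c' := OrderIso.apply_symm_apply _ _
        refine ⟨Φ.symm c', (cpl_iff Φ _).1 (by rw [e]; exact h1), ?_,
          (good_iff Φ _ _).1 (by rw [e]; exact h3), (ih' _).1 (by rw [e]; exact h4)⟩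
        rw [← Φ.le_iff_le, e]; exact h2
      · rintro ⟨c', h1, h2, h3, h4⟩
        exact ⟨Φ c', (cpl_iff Φ _).2 h1, Φ.monotone h2, (good_iff Φ _ _).2 h3, (ih' _).2 h4⟩
    · constructor
      · intro H c' c'' h1 h2 h3 h4 h5
        refine (ih' _).1 (H (Φ c') (Φ c'') ((cpl_iff Φ _).2 h1) ((cpl_iff Φ _).2 h2) ?_ ?_
          ((good_iff Φ _ _).2 h5))
        · rw [← map_inf, h3, map_bot]
        · rw [← map_sup, h4]
      · intro H c' c'' h1 h2 h3 h4 h5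
        have e : Φ (Φ.symm c') = c' := OrderIso.apply_symm_apply _ _
        have e' : Φ (Φ.symm c'') = c'' := OrderIso.apply_symm_apply _ _
        have := H (Φ.symm c') (Φ.symm c'') ((cpl_iff Φ _).1 (by rw [e]; exact h1))
          ((cpl_iff Φ _).1 (by rw [e']; exact h2)) (by rw [← map_inf, h3, map_bot])
          (by rw [← map_sup, h4, OrderIso.symm_apply_apply])
          ((good_iff Φ _ _).1 (by rw [e]; exact h5))
        rw [← ih', e'] at this
        exact this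

end

theorem taskF1 : TaskF1 := by
  intro L M _ _ _ _ Φ
  exact ⟨cpl_iff Φ, mark_iff Φ, fun V W k h => tt_iff Φ V W k h⟩

end Pool.Agent.H168DD.PIF1
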