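import Pool.Agent.H168DD.PI.A1
import Pool.Agent.H168DD.PID2
import Pool.Agent.H168DD.PI.B
import Pool.Agent.H168DD.PI.C1
import Pool.Agent.H168DD.PI.C2
import Pool.Agent.H168DD.PI.C3
import Pool.Agent.H168DD.PI.C4
import Pool.Agent.H168DD.PI.C567
import Pool.Agent.H168DD.PI.C8
import Pool.Agent.H168DD.PI.C9
import Pool.Agent.H168DD.PI.C10
import Pool.Agent.H168DD.PI.Imm
import Pool.Agent.H168DD.PI.D13
import Pool.Agent.H168DD.PI.D4
import Pool.Agent.H168DD.PI.D56
import Pool.Agent.H168DD.PI.D7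
import Pool.Agent.H168DD.PI.D8
import Pool.Agent.H168DD.PI.D9
import Pool.Agent.H168DD.PI.E1
import Pool.Agent.H168DD.PI.E2
import Pool.Agent.H168DD.PI.E3
import Pool.Agent.H168DD.PI.E4
import Pool.Agent.H168DD.PIF1

/-! Project H572-PI (helper572): assembly by helper168. The files in the folder PI are copies of the files
of the provers: helper266 (A1, E1), helper449 (B, C8), helper455 (C1), helper614 (C2), helper468 (C3), helper592 (C4),
helper107 (C5, C6, C7, E2), helper512 (C9, Imm), helper192 (C10), helper645 (D1, D3, D5, D6), helper62 (D4),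
helper873 (D7), helper85 (D8), helper564 (D9), helper211 (E3), helper333 (E4, E5). -/

set_option autoImplicit false

namespace Pool.Agent.H168DD.PIMain

open Pool.Agent.H572R4

theorem hmain (Φ : LB eX ≃o LB ⟨{zz}, Pool.Agent.H168DD.PID2.taskA2⟩) : False :=
  main Pool.Agent.H168DD.PID2.taskA2 Pool.Agent.H449R3.PIB.taskB taskC1
    Pool.Agent.H614R3.PI.taskC2 taskC3 Pool.Agent.H592S.PI.taskC4
    Pool.Agent.H107R3.PI.taskC5 Pool.Agent.H107R3.PI.taskC6 Pool.Agent.H107R3.PI.taskC7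
    (Pool.Agent.H449R3.PIC8.taskC8 immH512) (taskC9 immH512) (taskC10 immH512)
    Pool.Agent.H645R3.PI.taskD1 Pool.Agent.H168DD.PID2.taskD2 Pool.Agent.H645R3.PI.taskD3
    Pool.Agent.H62R3.PI.taskD4' Pool.Agent.H645R3.PI56.taskD5 Pool.Agent.H645R3.PI56.taskD6
    taskD7 Pool.Agent.H85R3.PI.taskD8 Pool.Agent.H572R4.D9h564.taskD9
    Pool.Agent.H168DD.PID2.taskD10 taskE1_h266 Pool.Agent.H107R3.PI.taskE2
    Pool.Agent.H211R3.PI3.taskE3 Pool.Agent.H333R3.PI.taskE4 Pool.Agent.H333R3.PI.taskE5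
    Pool.Agent.H168DD.PIF1.taskF1 Φ

end Pool.Agent.H168DD.PIMain
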