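import Pool.Agent.H168DD.NotSC

set_option linter.unusedSectionVars false
set_option linter.unusedVariables false

namespace H168DD

open SimpleGraph

/-- Tutte's theorem in the form of families of odd sets. -/
lemma tutte_fam {α : Type*} [Fintype α] [DecidableEq α] (H : SimpleGraph α)
    (hcond : ∀ (A : Finset α) (F : Finset (Finset α)), (∀ O ∈ F, Odd O.card) →
      (∀ O ∈ F, ∀ O' ∈ F, O ≠ O' → Disjoint O O') → (∀ O ∈ F, Disjoint O A) →
      (∀ O ∈ F, ∀ x ∈ O, ∀ y, H.Adj x y → y ∈ O ∨ y ∈ A) → F.card ≤ A.card) :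
    ∃ m : α → α, ∀ x, m (m x) = x ∧ H.Adj x (m x) := by
  classical
  have hM : ∃ M : H.Subgraph, M.IsPerfectMatching := by
    rw [SimpleGraph.tutte]
    intro u hu
    unfold IsTutteViolator at hu
    set G' := ((⊤ : H.Subgraph).deleteVerts u).coe with hG'
    have hverts : ∀ x, x ∈ ((⊤ : H.Subgraph).deleteVerts u).verts ↔ x ∉ u := by
      intro x; simp
    let g : G'.ConnectedComponent → Finset α := fun c => (Subtype.val '' c.supp).toFinset
    have hg : ∀ c x, x ∈ g c ↔ ∃ h : x ∈ ((⊤ : H.Subgraph).deleteVerts u).verts,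
        G'.connectedComponentMk ⟨x, h⟩ = c := by
      intro c x
      simp only [g, Set.mem_toFinset, Set.mem_image, ConnectedComponent.mem_supp_iff]
      constructor
      · rintro ⟨y, hy, rfl⟩; exact ⟨y.2, hy⟩
      · rintro ⟨h, hx⟩; exact ⟨⟨x, h⟩, hx, rfl⟩
    have hginj : Function.Injective g := by
      intro c c' hcc
      obtain ⟨x, hx⟩ := c.nonempty_supp
      have : x.1 ∈ g c := (hg c x.1).2 ⟨x.2, hx⟩
      rw [hcc] at this
      obtain ⟨h, hx'⟩ := (hg c' x.1).1 this
      exact hx.symm.trans hx'
    have hcard : ∀ c, (g c).card = c.supp.ncard := by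
      intro c
      simp only [g]
      rw [← Set.ncard_eq_toFinset_card', Set.ncard_image_of_injective _ Subtype.val_injective]
    set F := (G'.oddComponents.toFinset).image g with hF
    have hFcard : F.card = G'.oddComponents.ncard := by
      rw [hF, Finset.card_image_of_injective _ hginj, Set.ncard_eq_toFinset_card']
    have key := hcond u.toFinset F ?_ ?_ ?_ ?_
    · rw [hFcard, ← Set.ncard_eq_toFinset_card'] at key
      omega
    · intro O hO
      obtain ⟨c, hc, rfl⟩ := Finset.mem_image.1 hO
      rw [hcard]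
      simpa using hc
    · intro O hO O' hO' hne
      obtain ⟨c, hc, rfl⟩ := Finset.mem_image.1 hO
      obtain ⟨c', hc', rfl⟩ := Finset.mem_image.1 hO'
      rw [Finset.disjoint_left]
      intro x hx hx'
      obtain ⟨h, e⟩ := (hg c x).1 hx
      obtain ⟨h', e'⟩ := (hg c' x).1 hx'
      exact hne (by rw [← e, ← e'])
    · intro O hO
      obtain ⟨c, hc, rfl⟩ := Finset.mem_image.1 hO
      rw [Finset.disjoint_left]
      intro x hx hxu
      obtain ⟨h, e⟩ := (hg c x).1 hx
      exact (hverts x).1 h (by simpa using hxu)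
    · intro O hO x hx y hxy
      obtain ⟨c, hc, rfl⟩ := Finset.mem_image.1 hO
      obtain ⟨h, e⟩ := (hg c x).1 hx
      by_cases hy : y ∈ u
      · right; simpa using hy
      · left
        have hy' := (hverts y).2 hy
        refine (hg c y).2 ⟨hy', ?_⟩
        rw [← e]
        apply ConnectedComponent.sound
        apply Adj.reachable
        rw [hG']
        simp only [Subgraph.coe_adj, Subgraph.deleteVerts_adj, Subgraph.top_adj,
          Subgraph.verts_top, Set.mem_univ, true_and]
        exact ⟨hy, (hverts x).1 h, hxy.symm⟩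
  obtain ⟨M, hM⟩ := hM
  rw [Subgraph.isPerfectMatching_iff] at hM
  choose m hm hm' using hM
  refine ⟨m, fun x => ⟨?_, (hm x).adj_sub⟩⟩
  exact ((hm' (m x) x (hm x).symm)).symm

end H168DD
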